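import Pool.Agent.Helper65.EV.St

/-!
# Project EV, module INF: every reproduction event has infinitely many participants
-/

set_option autoImplicit false

universe u

open MeasureTheory ProbabilityTheory Set Filter
open scoped ENNReal Topology
open Pool.Agent.Helper65.EV Pool.Agent.Helper84.Eve

namespace Pool.Agent.Helper38.EV

/-- the marks from level `m` on are not below the size -/
private def Cm (m : ℕ) : Set (ℝ × (ℕ → ℝ)) := {q | ∀ j, m ≤ j → ¬ q.2 j < q.1}

private lemma measurableSet_Cm (m : ℕ) : MeasurableSet (Cm m) := by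
  have h1 : ∀ j : ℕ, MeasurableSet {q : ℝ × (ℕ → ℝ) | q.2 j < q.1} := fun j =>
    measurableSet_lt (by fun_prop) (by fun_prop)
  have h2 : Cm m = ⋂ j, ⋂ (_ : m ≤ j), {q : ℝ × (ℕ → ℝ) | q.2 j < q.1}ᶜ := by
    ext q
    simp only [Cm, mem_ofPred_eq, mem_iInter, mem_compl_iff]
  rw [h2]
  exact MeasurableSet.iInter fun j => MeasurableSet.iInter fun _ => (h1 j).compl

private lemma section_zero (m : ℕ) {u : ℝ} (h0 : 0 < u) :
    Measure.infinitePi (fun _ : ℕ => unif) {v : ℕ → ℝ | ∀ j, m ≤ j → ¬ v j < u} = 0 := by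
  have hb : ∀ k : ℕ, Measure.infinitePi (fun _ : ℕ => unif)
      {v : ℕ → ℝ | ∀ j, m ≤ j → ¬ v j < u} ≤ ENNReal.ofReal (1 - u) ^ k := by
    intro k
    calc Measure.infinitePi (fun _ : ℕ => unif) {v : ℕ → ℝ | ∀ j, m ≤ j → ¬ v j < u}
        ≤ Measure.infinitePi (fun _ : ℕ => unif)
          (Set.pi (Finset.Ico m (m + k) : Finset ℕ) (fun _ => {x : ℝ | ¬ x < u})) := by
          apply measure_mono
          intro v hv j hj
          exact hv j (Finset.mem_Ico.1 hj).1
      _ = ENNReal.ofReal (1 - u) ^ k := by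
          rw [Measure.infinitePi_pi]
          · rw [Finset.prod_congr rfl (g := fun _ => ENNReal.ofReal (1 - u))]
            · simp
            · intro j _
              exact unif_not_lt h0.le
          · intro j _
            exact (measurableSet_lt measurable_id measurable_const).compl
  have hlt : ENNReal.ofReal (1 - u) < 1 := by
    rw [← ENNReal.ofReal_one]
    exact (ENNReal.ofReal_lt_ofReal_iff one_pos).2 (by linarith)
  have ht := ENNReal.tendsto_pow_atTop_nhds_zero_of_lt_one hlt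
  exact le_antisymm (ge_of_tendsto' ht hb) zero_le

private lemma mk_Cm {Λ : Measure ℝ} (hr : DustRegime Λ) (m : ℕ) : Pool.Agent.Helper84.Eve.mk Λ (Cm m) = 0 := by
  unfold Pool.Agent.Helper84.Eve.mk
  rw [Measure.prod_apply (measurableSet_Cm m)]
  have h1 : ∀ᵐ u ∂(nu Λ), Measure.infinitePi (fun _ : ℕ => unif) (Prod.mk u ⁻¹' Cm m) = 0 := by
    have hz : nu Λ {0} = 0 := withDensity_absolutelyContinuous _ _ hr.zero
    have hz' : ∀ᵐ u ∂(nu Λ), u ≠ 0 := by
      rw [ae_iff]
      simpa using hz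
    filter_upwards [nu_supp hr.supp, hz'] with u hu hu0
    exact section_zero m (lt_of_le_of_ne hu.1 (Ne.symm hu0))
  rw [lintegral_congr_ae h1]
  simp

private lemma intensity_Bm {Λ : Measure ℝ} (hr : DustRegime Λ) (m : ℕ) :
    intensity Λ ((univ : Set ℝ) ×ˢ Cm m) = 0 := by
  have := hr.finite
  have : SFinite (nu Λ) := by unfold nu; infer_instance
  have h := mk_Cm hr m
  unfold Pool.Agent.Helper84.Eve.mk at h
  unfold intensity
  rw [Measure.prod_prod, h, mul_zero]

theorem hINF : Pool.Agent.Helper65.EV.hINF.{u} := by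
  intro Λ hr Ω _ P _ L
  have h : ∀ m : ℕ, ∀ᵐ ω ∂P, ∀ e ∈ L.N ω, e ∉ ((univ : Set ℝ) ×ˢ Cm m) := by
    intro m
    have hA : MeasurableSet ((univ : Set ℝ) ×ˢ Cm m) := MeasurableSet.univ.prod (measurableSet_Cm m)
    have h0 := intensity_Bm hr m
    have h1 := L.poisson.measure_zero hA (by rw [h0]; exact ENNReal.zero_ne_top)
    rw [h0] at h1
    have h1' : P {ω | (L.N ω ∩ ((univ : Set ℝ) ×ˢ Cm m)).encard = 0} = 1 := by
      rw [h1]
      simp
    have hm : MeasurableSet {ω | (L.N ω ∩ ((univ : Set ℝ) ×ˢ Cm m)).encard = 0} :=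
      L.poisson.measurable_count _ hA (MeasurableSet.singleton 0)
    have h2 : ∀ᵐ ω ∂P, (L.N ω ∩ ((univ : Set ℝ) ×ˢ Cm m)).encard = 0 :=
      (prob_compl_eq_zero_iff hm).2 h1'
    filter_upwards [h2] with ω hω e he hc
    rw [Set.encard_eq_zero] at hω
    have h3 : e ∈ L.N ω ∩ ((univ : Set ℝ) ×ˢ Cm m) := ⟨he, hc⟩
    rw [hω] at h3
    exact h3
  rw [← ae_all_iff] at h
  filter_upwards [h] with ω hω e he
  by_contra hinf
  rw [Set.not_infinite] at hinf
  obtain ⟨M, hM⟩ := hinf.bddAbove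
  refine hω (M + 1) e he ⟨mem_univ _, fun j hj hc => ?_⟩
  have h3 := hM (show j ∈ {j | Part e j} from hc)
  omega

end Pool.Agent.Helper38.EV
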